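import Pool.Agent.helper56.CT.SpecG

/-!
# Project cd, module G5: the state sum at `x = -4` as a sum over the 2-factors
-/

namespace CT
open Finset

section
variable {V : Type} [Fintype V] [DecidableEq V] {G : SimpleGraph V} {e : V × Fin 4 → V × Fin 4}

/-- the edge of a dart -/
def G5_edg (h : ∀ u i, G.Adj u (e (u, i)).1) (d : V × Fin 4) : G.edgeSet :=
  ⟨s(d.1, (e d).1), h d.1 d.2⟩

omit [Fintype V] [DecidableEq V] in
theorem G5_edg_e (h : ∀ u i, G.Adj u (e (u, i)).1) (he : ∀ d, e (e d) = d) (d : V × Fin 4) :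
    G5_edg h (e d) = G5_edg h d := by
  apply Subtype.ext
  show s((e d).1, (e (e d)).1) = s(d.1, (e d).1)
  rw [he d, Sym2.eq_swap]

omit [Fintype V] [DecidableEq V] in
theorem G5_edg_fib (h : ∀ u i, G.Adj u (e (u, i)).1) (he : ∀ d, e (e d) = d)
    (hinj : ∀ u i j, (e (u, i)).1 = (e (u, j)).1 → i = j) (d d' : V × Fin 4)
    (hd : G5_edg h d = G5_edg h d') : d' = d ∨ d' = e d := by
  have hinj' : ∀ d d' : V × Fin 4, d.1 = d'.1 → (e d).1 = (e d').1 → d = d' := by
    rintro ⟨u, i⟩ ⟨v, j⟩ h1 h2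
    have h1' : u = v := h1
    subst h1'
    rw [hinj u i j h2]
  have h1 : s(d.1, (e d).1) = s(d'.1, (e d').1) := congrArg Subtype.val hd
  rw [Sym2.eq_iff] at h1
  rcases h1 with ⟨h1, h2⟩ | ⟨h1, h2⟩
  · left
    exact (hinj' d d' h1 h2).symm
  · right
    have h3 : d = e d' := hinj' d (e d') h1 (by rw [he d']; exact h2)
    rw [h3, he d']

omit [Fintype V] [DecidableEq V] in
theorem G5_edg_surj (h : ∀ u i, G.Adj u (e (u, i)).1)
    (hsurj : ∀ u w, G.Adj u w → ∃ i, (e (u, i)).1 = w) (a : G.edgeSet) (u : V)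
    (hu : u ∈ (a : Sym2 V)) : ∃ i, G5_edg h (u, i) = a := by
  obtain ⟨a, ha⟩ := a
  obtain ⟨w, hw⟩ := hu
  have hadj : G.Adj u w := by
    have : s(u, w) ∈ G.edgeSet := by rw [← hw]; exact ha
    exact this
  obtain ⟨i, hi⟩ := hsurj u w hadj
  refine ⟨i, Subtype.ext ?_⟩
  show s(u, (e (u, i)).1) = a
  rw [hi]
  exact hw.symm

omit [Fintype V] [DecidableEq V] in
theorem G5_edg_surj' (h : ∀ u i, G.Adj u (e (u, i)).1)
    (hsurj : ∀ u w, G.Adj u w → ∃ i, (e (u, i)).1 = w) (a : G.edgeSet) :
    ∃ d, G5_edg h d = a := by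
  obtain ⟨u, hu⟩ : ∃ u, u ∈ (a : Sym2 V) := by
    obtain ⟨a, ha⟩ := a
    induction a using Sym2.ind with
    | _ x y => exact ⟨x, Sym2.mem_mk_left x y⟩
  obtain ⟨i, hi⟩ := G5_edg_surj h hsurj a u hu
  exact ⟨(u, i), hi⟩

omit [Fintype V] in
open Classical in
theorem G5_card (h : ∀ u i, G.Adj u (e (u, i)).1) (he : ∀ d, e (e d) = d)
    (hinj : ∀ u i j, (e (u, i)).1 = (e (u, j)).1 → i = j)
    (hsurj : ∀ u w, G.Adj u w → ∃ i, (e (u, i)).1 = w) (F : Finset G.edgeSet)
    (S : Finset (Sym2 V)) (hS : ∀ x, x ∈ S ↔ ∃ a ∈ F, (a : Sym2 V) = x)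
    (s : V × Fin 4 → Bool) (hF : ∀ d, G5_edg h d ∈ F ↔ s d = true) (v : V) :
    (S.filter fun a => v ∈ a).card =
      ((univ : Finset (Fin 4)).filter fun i => s (v, i) = true).card := by
  symm
  refine Finset.card_bij (fun i _ => (G5_edg h (v, i) : Sym2 V)) ?_ ?_ ?_
  · intro i hi
    rw [mem_filter] at hi ⊢
    refine ⟨(hS _).mpr ⟨_, (hF _).mpr hi.2, rfl⟩, ?_⟩
    exact Sym2.mem_mk_left _ _
  · intro i _ j _ hij
    rcases G5_edg_fib h he hinj _ _ (Subtype.ext hij) with h1 | h1
    · exact (congrArg Prod.snd h1).symm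
    · exfalso
      have h2 := h v i
      have h3 : v = (e (v, i)).1 := congrArg Prod.fst h1
      rw [← h3] at h2
      exact G.irrefl h2
  · intro x hx
    rw [mem_filter] at hx
    obtain ⟨a, haF, rfl⟩ := (hS x).mp hx.1
    obtain ⟨i, hi⟩ := G5_edg_surj h hsurj a v hx.2
    refine ⟨i, ?_, by rw [hi]⟩
    rw [mem_filter]
    refine ⟨mem_univ _, ?_⟩
    rw [← hF, hi]
    exact haF

theorem G5_fc {α : Type} (i : Fintype α) : @Fintype.card α i = Nat.card α :=
  Nat.card_eq_fintype_card.symm

theorem G5_bind {α β : Type} [∀ P : Prop, Decidable P] (s : Finset α) (f : α → β) (x : β) :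
    x ∈ (do
      let a ← s
      pure (f a) : Finset β) ↔ ∃ a ∈ s, f a = x := by
  have h1 : (do
      let a ← s
      pure (f a) : Finset β) = s.sup fun a => ({f a} : Finset β) := rfl
  rw [h1, Finset.mem_sup]
  constructor
  · rintro ⟨a, ha, hx⟩
    exact ⟨a, ha, (Finset.mem_singleton.mp hx).symm⟩
  · rintro ⟨a, ha, hx⟩
    exact ⟨a, ha, Finset.mem_singleton.mpr hx.symm⟩

open Classical in
theorem G5_const (hG4 : G4_stmt) (F : Finset G.edgeSet) :
    ((univ : Finset (V → Bool)).filter fun f => ∀ u w, (SimpleGraph.fromEdgeSet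
    ((fun a : G.edgeSet => (a : Sym2 V)) '' (F : Set G.edgeSet))).Adj u w → f u = f w).card =
      2 ^ cc F := by
  have h1 := hG4 V (SimpleGraph.fromEdgeSet
    ((fun a : G.edgeSet => (a : Sym2 V)) '' (F : Set G.edgeSet)))
  have h2 := h1.trans (congrArg (fun n => 2 ^ n) (G5_fc _))
  refine Eq.trans (congrArg Finset.card ?_) h2
  ext f
  simp only [mem_filter]

omit [Fintype V] [DecidableEq V] in
theorem G5_adj (h : ∀ u i, G.Adj u (e (u, i)).1)
    (hsurj : ∀ u w, G.Adj u w → ∃ i, (e (u, i)).1 = w) (F : Finset G.edgeSet)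
    (f : V → Bool) :
    (∀ u w, (SimpleGraph.fromEdgeSet
    ((fun a : G.edgeSet => (a : Sym2 V)) '' (F : Set G.edgeSet))).Adj u w → f u = f w) ↔
    ∀ d, G5_edg h d ∈ F → f d.1 = f (e d).1 := by
  constructor
  · intro hf d hd
    apply hf
    rw [SimpleGraph.fromEdgeSet_adj]
    exact ⟨⟨G5_edg h d, hd, rfl⟩, (h d.1 d.2).ne⟩
  · intro hf u w hadj
    rw [SimpleGraph.fromEdgeSet_adj] at hadj
    obtain ⟨⟨a, ha, haw⟩, hne⟩ := hadj
    have hu : u ∈ (a : Sym2 V) := by
      show u ∈ (a : Sym2 V)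
      have : (a : Sym2 V) = s(u, w) := haw
      rw [this]
      exact Sym2.mem_mk_left u w
    obtain ⟨i, hi⟩ := G5_edg_surj h hsurj a u hu
    have h1 : s(u, (e (u, i)).1) = s(u, w) := by
      have h2 : ((G5_edg h (u, i) : G.edgeSet) : Sym2 V) = s(u, (e (u, i)).1) := rfl
      rw [← h2, hi]
      exact haw
    have h3 : (e (u, i)).1 = w := by
      rw [Sym2.eq_iff] at h1
      rcases h1 with ⟨_, h4⟩ | ⟨h4, _⟩
      · exact h4
      · exact absurd h4 hne
    have h5 := hf (u, i) (by rw [hi]; exact ha)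
    rw [h3] at h5
    exact h5

open Classical in
theorem G5_kl (hG3 : G3_stmt) (hG4 : G4_stmt) (L : List V) (hL : L.Nodup) (hLall : ∀ v, v ∈ L)
    (hact : Act (dts L.toFinset) e) (h : ∀ u i, G.Adj u (e (u, i)).1)
    (hsurj : ∀ u w, G.Adj u w → ∃ i, (e (u, i)).1 = w)
    (s : V × Fin 4 → Bool) (hs : IsTyp L e s) (F F' : Finset G.edgeSet)
    (hF : ∀ d, G5_edg h d ∈ F ↔ s d = true) (hF' : ∀ d, G5_edg h d ∈ F' ↔ s d = false) :
    kl s L e = cc F + cc F' := by
  have h3 := hG3 V L e s hL hact hs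
  have hse : ∀ d, s (e d) = s d := fun d => hs.1 d (hLall _)
  have ht : ∀ u, ∃ i, s (u, i) = true := by
    intro u
    have h1 := hs.2.2 u (hLall u)
    have h2 : ((univ : Finset (Fin 4)).filter fun i => s (u, i) = true).Nonempty := by
      rw [← Finset.card_pos, h1]
      norm_num
    obtain ⟨i, hi⟩ := h2
    exact ⟨i, (mem_filter.mp hi).2⟩
  have hf : ∀ u, ∃ i, s (u, i) = false := by
    intro u
    by_contra hcon
    push Not at hcon
    have h1 := hs.2.2 u (hLall u)
    have h2 : ((univ : Finset (Fin 4)).filter fun i => s (u, i) = true) = univ := by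
      ext i
      rw [mem_filter]
      have := hcon i
      simpa using this
    rw [h2] at h1
    simp at h1
  choose it hit using ht
  choose jf hjf using hf
  have hcard : ((univ : Finset (V × Fin 4 → Bool)).filter fun f =>
      (∀ d, d.1 ∈ L → f (e d) = f d) ∧ (∀ d, d.1 ∉ L → f d = false) ∧
      ∀ u ∈ L, ∀ i j, s (u, i) = s (u, j) → f (u, i) = f (u, j)).card =
      (((univ : Finset (V → Bool)).filter fun f => ∀ u w, (SimpleGraph.fromEdgeSet
        ((fun a : G.edgeSet => (a : Sym2 V)) '' (F : Set G.edgeSet))).Adj u w → f u = f w) ×ˢ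
      ((univ : Finset (V → Bool)).filter fun f => ∀ u w, (SimpleGraph.fromEdgeSet
        ((fun a : G.edgeSet => (a : Sym2 V)) '' (F' : Set G.edgeSet))).Adj u w →
          f u = f w)).card := by
    refine Finset.card_nbij' (fun f => (fun u => f (u, it u), fun u => f (u, jf u)))
      (fun φ d => if s d = true then φ.1 d.1 else φ.2 d.1) ?_ ?_ ?_ ?_
    · intro f hf
      rw [Finset.mem_coe, mem_filter] at hf
      obtain ⟨-, hf1, -, hf3⟩ := hf
      rw [Finset.mem_coe, mem_product, mem_filter, mem_filter, G5_adj h hsurj, G5_adj h hsurj]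
      refine ⟨⟨mem_univ _, fun d hd => ?_⟩, ⟨mem_univ _, fun d hd => ?_⟩⟩
      · rw [hF] at hd
        show f (d.1, it d.1) = f ((e d).1, it (e d).1)
        have e1 : f (d.1, it d.1) = f (d.1, d.2) :=
          hf3 d.1 (hLall _) _ _ ((hit d.1).trans hd.symm)
        have e2 : f ((e d).1, it (e d).1) = f ((e d).1, (e d).2) :=
          hf3 (e d).1 (hLall _) _ _ ((hit (e d).1).trans ((hse d).trans hd).symm)
        rw [e1, e2]
        exact (hf1 d (hLall _)).symm
      · rw [hF'] at hd
        show f (d.1, jf d.1) = f ((e d).1, jf (e d).1)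
        have e1 : f (d.1, jf d.1) = f (d.1, d.2) :=
          hf3 d.1 (hLall _) _ _ ((hjf d.1).trans hd.symm)
        have e2 : f ((e d).1, jf (e d).1) = f ((e d).1, (e d).2) :=
          hf3 (e d).1 (hLall _) _ _ ((hjf (e d).1).trans ((hse d).trans hd).symm)
        rw [e1, e2]
        exact (hf1 d (hLall _)).symm
    · intro φ hφ
      rw [Finset.mem_coe, mem_product, mem_filter, mem_filter, G5_adj h hsurj,
        G5_adj h hsurj] at hφ
      obtain ⟨⟨-, h1⟩, ⟨-, h2⟩⟩ := hφ
      rw [Finset.mem_coe, mem_filter]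
      refine ⟨mem_univ _, fun d _ => ?_, fun d hd => absurd (hLall _) hd, fun u _ i j hij => ?_⟩
      · show (if s (e d) = true then φ.1 (e d).1 else φ.2 (e d).1) =
          (if s d = true then φ.1 d.1 else φ.2 d.1)
        rw [hse d]
        by_cases hd : s d = true
        · rw [if_pos hd, if_pos hd]
          exact (h1 d ((hF d).mpr hd)).symm
        · rw [if_neg hd, if_neg hd]
          exact (h2 d ((hF' d).mpr (by simpa using hd))).symm
      · show (if s (u, i) = true then φ.1 u else φ.2 u) =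
          (if s (u, j) = true then φ.1 u else φ.2 u)
        rw [hij]
    · intro f hf
      rw [Finset.mem_coe, mem_filter] at hf
      obtain ⟨-, hf1, -, hf3⟩ := hf
      funext d
      show (if s d = true then f (d.1, it d.1) else f (d.1, jf d.1)) = f d
      by_cases hd : s d = true
      · rw [if_pos hd]
        exact hf3 d.1 (hLall _) _ _ ((hit d.1).trans hd.symm)
      · rw [if_neg hd]
        have hd' : s d = false := by simpa using hd
        exact hf3 d.1 (hLall _) _ _ ((hjf d.1).trans hd'.symm)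
    · intro φ _
      apply Prod.ext
      · funext u
        show (if s (u, it u) = true then φ.1 u else φ.2 u) = φ.1 u
        rw [if_pos (hit u)]
      · funext u
        show (if s (u, jf u) = true then φ.1 u else φ.2 u) = φ.2 u
        rw [if_neg (by rw [hjf u]; decide)]
  rw [h3, card_product, G5_const hG4, G5_const hG4, ← pow_add] at hcard
  exact Nat.pow_right_injective (le_refl 2) hcard

omit [Fintype V] [DecidableEq V] in
theorem G5_lab_typ (L : List V) (l : V × Fin 4 → Bool × Bool) (hl : IsLab L e l) :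
    IsTyp L e (fun d => (l d).1) := by
  refine ⟨fun d hd => ?_, fun d hd => ?_, fun u hu => ?_⟩
  · show (l (e d)).1 = (l d).1
    rw [hl.1 d hd]
    rfl
  · show (l d).1 = false
    rw [hl.2.1 d hd]
  · have hinj := hl.2.2 u hu
    have hbij : Function.Bijective fun i => l (u, i) := by
      rw [Fintype.bijective_iff_injective_and_card]
      exact ⟨hinj, by simp⟩
    have h1 : ((univ : Finset (Fin 4)).filter fun i => (l (u, i)).1 = true).card =
        ((univ : Finset (Bool × Bool)).filter fun b => b.1 = true).card := by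
      refine Finset.card_bij (fun i _ => l (u, i)) ?_ ?_ ?_
      · intro i hi
        rw [mem_filter] at hi ⊢
        exact ⟨mem_univ _, hi.2⟩
      · intro i _ j _ hij
        exact hinj hij
      · intro b hb
        rw [mem_filter] at hb
        obtain ⟨i, hi⟩ := hbij.2 b
        refine ⟨i, ?_, hi⟩
        rw [mem_filter]
        refine ⟨mem_univ _, ?_⟩
        have hi' : l (u, i) = b := hi
        rw [hi']
        exact hb.2
    rw [h1]
    decide

end

open Classical in
theorem G5 (hG1 : G1_stmt) (hG2 : G2_stmt) (hG3 : G3_stmt) (hG4 : G4_stmt) : G5_stmt := by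
  intro V _ _ G _ L e hL hLall hact0 hadj hsurj hinj
  have hLf : L.toFinset = univ := by
    ext v
    simp [hLall v]
  have hact : Act (dts L.toFinset) e := by rw [hLf]; exact hact0
  have he : ∀ d, e (e d) = d := hact.1
  rw [hG1 V L e hL hact]
  have hmaps : ∀ l ∈ (univ : Finset (V × Fin 4 → Bool × Bool)).filter (fun l => IsLab L e l),
      (fun d => (l d).1) ∈ (univ : Finset (V × Fin 4 → Bool)).filter (fun s => IsTyp L e s) := by
    intro l hl
    rw [mem_filter] at hl ⊢
    exact ⟨mem_univ _, G5_lab_typ L l hl.2⟩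
  rw [← Finset.sum_fiberwise_of_maps_to hmaps]
  have hinner : ∀ s ∈ (univ : Finset (V × Fin 4 → Bool)).filter (fun s => IsTyp L e s),
      ∑ l ∈ ((univ : Finset (V × Fin 4 → Bool × Bool)).filter (fun l => IsLab L e l)).filter
        (fun l => (fun d => (l d).1) = s), (-1 : ℤ) ^ kl (fun d => (l d).1) L e =
      (-2 : ℤ) ^ kl s L e := by
    intro s hs
    have hs' := (mem_filter.mp hs).2
    have h1 : ∑ l ∈ ((univ : Finset (V × Fin 4 → Bool × Bool)).filter
        (fun l => IsLab L e l)).filter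
        (fun l => (fun d => (l d).1) = s), (-1 : ℤ) ^ kl (fun d => (l d).1) L e =
        ∑ l ∈ (univ : Finset (V × Fin 4 → Bool × Bool)).filter (fun l =>
      IsLab L e l ∧ ∀ d : V × Fin 4, (l d).1 = s d), (-1 : ℤ) ^ kl s L e := by
      refine Finset.sum_congr ?_ ?_
      · ext l
        simp only [mem_filter, mem_univ, true_and, funext_iff]
      · intro l hl
        rw [mem_filter] at hl
        have : (fun d => (l d).1) = s := funext hl.2.2
        rw [this]
    rw [h1, Finset.sum_const, hG2 V L e s hL hact hs', nsmul_eq_mul]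
    rw [show (-2 : ℤ) = 2 * (-1) by norm_num, mul_pow]
    push_cast
    ring
  rw [Finset.sum_congr rfl hinner]
  -- the bijection
  have hbind : ∀ (F : Finset G.edgeSet) (x : Sym2 V), x ∈ (do
      let a ← F
      pure (a : Sym2 V) : Finset (Sym2 V)) ↔ ∃ a ∈ F, (a : Sym2 V) = x := by
    intro F x
    exact G5_bind F (fun a => (a : Sym2 V)) x
  have hfib := G5_edg_fib hadj he hinj
  refine Finset.sum_nbij'
    (fun s => (univ : Finset G.edgeSet).filter (fun a => ∃ d, G5_edg hadj d = a ∧ s d = true))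
    (fun F d => decide (G5_edg hadj d ∈ F)) ?_ ?_ ?_ ?_ ?_
  all_goals
    have hmemF : ∀ s : V × Fin 4 → Bool, IsTyp L e s → ∀ d, G5_edg hadj d ∈
        (univ : Finset G.edgeSet).filter (fun a => ∃ d, G5_edg hadj d = a ∧ s d = true) ↔
        s d = true := by
      intro s hs d
      rw [mem_filter]
      constructor
      · rintro ⟨-, d', h1, h2⟩
        rcases hfib d' d h1 with h3 | h3
        · rw [h3]; exact h2
        · rw [h3, hs.1 d' (hLall _)]; exact h2
      · intro h1
        exact ⟨mem_univ _, d, rfl, h1⟩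
  · intro s hs
    have hs' := (mem_filter.mp hs).2
    rw [mem_filter]
    refine ⟨mem_univ _, fun v => ?_⟩
    rw [G5_card hadj he hinj hsurj _ _ (fun x => hbind _ x) s (hmemF s hs') v]
    exact hs'.2.2 v (hLall v)
  · intro F hF
    have hF' := (mem_filter.mp hF).2
    rw [mem_filter]
    refine ⟨mem_univ _, fun d _ => ?_, fun d hd => absurd (hLall _) hd, fun u _ => ?_⟩
    · show decide (G5_edg hadj (e d) ∈ F) = decide (G5_edg hadj d ∈ F)
      rw [G5_edg_e hadj he]
    · have h1 := G5_card hadj he hinj hsurj F _ (fun x => hbind F x)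
        (fun d => decide (G5_edg hadj d ∈ F)) (fun d => by simp) u
      rw [hF' u] at h1
      exact h1.symm
  · intro s hs
    have hs' := (mem_filter.mp hs).2
    funext d
    have h1 := hmemF s hs' d
    by_cases hd : s d = true
    · rw [hd]
      exact decide_eq_true (h1.mpr hd)
    · have hd' : s d = false := by simpa using hd
      rw [hd']
      exact decide_eq_false (fun h2 => hd (h1.mp h2))
  · intro F hF
    ext a
    rw [mem_filter]
    constructor
    · rintro ⟨-, d, h1, h2⟩
      rw [← h1]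
      simpa using h2
    · intro ha
      obtain ⟨d, hd⟩ := G5_edg_surj' hadj hsurj a
      refine ⟨mem_univ _, d, hd, ?_⟩
      rw [← hd] at ha
      simpa using ha
  · intro s hs
    have hs' := (mem_filter.mp hs).2
    have h1 := G5_kl hG3 hG4 L hL hLall hact hadj hsurj s hs' _
      ((univ : Finset G.edgeSet).filter (fun a => ∃ d, G5_edg hadj d = a ∧ s d = true))ᶜ
      (hmemF s hs') (fun d => by
        rw [mem_compl, hmemF s hs']
        simp)
    rw [h1]

end CT
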